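import Mathlib
import Pool.Agent.Lib.helper4.Ladder

set_option autoImplicit false

namespace Pool.Agent.Results.MP_7b4824_gt.NoSuitable

open Set Filter Topology
open Pool.Agent.Lib.helper4.Ladder

/-- The ordinal `ω₁`, as a well-ordered type. -/
abbrev W : Type := (Cardinal.aleph 1).ord.ToType

/-- The set `U_α` of the elements of the product that are trivial at all coordinates `β < α`. -/
def U (G : W → Type) [∀ a, Group (G a)] (α : W) : Set (∀ a, G a) := {x | ∀ β < α, x β = 1}

/-- `S` is a suitable set for the topological group `H`: `S` is discrete, `S ∪ {1}` is closed,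
and the subgroup generated by `S` is dense. -/
def Suitable {H : Type} [Group H] [TopologicalSpace H] (S : Set H) : Prop :=
  IsDiscrete S ∧ IsClosed (insert 1 S) ∧ Dense (Subgroup.closure S : Set H)

theorem result : ∃ (G : W → Type) (_ : ∀ a, Group (G a)), (∀ a, Nontrivial (G a)) ∧
    ∃ _ : TopologicalSpace (∀ a, G a), IsTopologicalGroup (∀ a, G a) ∧
      (𝓝 (1 : ∀ a, G a)).HasBasis (fun _ : W => True) (U G) ∧
      ∃ H : Subgroup (∀ a, G a), (∀ x ∈ H, {a | x a ≠ 1}.Countable) ∧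
        ¬ ∃ S : Set H, Suitable S := by
  let t : TopologicalSpace (W → Multiplicative ℤ) :=
    { IsOpen := fun V => ∀ x ∈ V, ∃ α, {y | ∀ ξ < α, y ξ = x ξ} ⊆ V
      isOpen_univ := fun _ _ => ⟨Classical.arbitrary _, subset_univ _⟩
      isOpen_inter := fun s t hs ht x hx => by
        obtain ⟨a, ha⟩ := hs x hx.1
        obtain ⟨b, hb⟩ := ht x hx.2
        exact ⟨max a b, fun y hy => ⟨ha fun ξ h => hy ξ (lt_max_of_lt_left h),
          hb fun ξ h => hy ξ (lt_max_of_lt_right h)⟩⟩
      isOpen_sUnion := fun s hs x ⟨V, h1, h2⟩ =>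
        (hs V h1 x h2).imp fun _ h => h.trans (subset_sUnion_of_mem h1) }
  have hb : ∀ x : W → Multiplicative ℤ, (@nhds _ t x).HasBasis (fun _ : W => True)
      fun α => {y | ∀ ξ < α, y ξ = x ξ} := fun x => ⟨fun V => ⟨fun h => by
    obtain ⟨V', h1, h2, h3⟩ := (@mem_nhds_iff _ t _ _).1 h
    obtain ⟨α, hα⟩ := h2 x h3
    exact ⟨α, trivial, hα.trans h1⟩, fun ⟨α, _, h⟩ => (@mem_nhds_iff _ t _ _).2
      ⟨_, h, fun y hy => ⟨α, fun z hz ξ h => (hz ξ h).trans (hy ξ h)⟩, fun _ _ => rfl⟩⟩⟩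
  let H : Subgroup (W → Multiplicative ℤ) :=
    { carrier := {x | (fun a => (x a).toAdd) ∈ L}
      mul_mem' := fun a b => L.add_mem a b
      one_mem' := L.zero_mem
      inv_mem' := fun a => L.neg_mem a }
  refine ⟨fun _ => Multiplicative ℤ, inferInstance, inferInstance, t, ?_, hb 1, H, ?_, ?_⟩
  · refine @IsTopologicalGroup.mk _ t _ (@ContinuousMul.mk _ t _ ?_) (@ContinuousInv.mk _ t _ ?_)
    · refine continuous_iff_continuousAt.2 fun p => ?_
      rw [ContinuousAt, nhds_prod_eq]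
      refine (((hb p.1).prod (hb p.2)).tendsto_iff (hb _)).2 fun α _ =>
        ⟨(α, α), ⟨trivial, trivial⟩, fun q hq ξ h => ?_⟩
      rw [Pi.mul_apply, Pi.mul_apply, hq.1 ξ h, hq.2 ξ h]
    · refine continuous_iff_continuousAt.2 fun p => ?_
      refine ((hb p).tendsto_iff (hb _)).2 fun α _ => ⟨α, trivial, fun q hq ξ h => ?_⟩
      exact congrArg (·⁻¹) (hq ξ h)
  · intro x hx
    obtain ⟨β, hβ⟩ := bdd hx
    exact (Pool.Agent.Lib.helper4.TotOrd.Iio_count β).mono fun a ha =>
      not_le.1 fun h => ha (hβ a h)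
  · rintro ⟨S, h1, h2, h3⟩
    refine core (K := H) (fun x a => (x.1 a).toAdd) (Subset.antisymm ?_ fun y hy =>
      ⟨⟨fun a => Multiplicative.ofAdd (y a), hy⟩, rfl⟩) (fun x => ?_) 1 rfl S _ h1 h2 h3
      fun d hd => ?_
    · rintro _ ⟨x, rfl⟩; exact x.2
    · rw [nhds_subtype]
      exact (hb x.1).comap _
    · induction hd using Subgroup.closure_induction with
      | mem x hx => exact AddSubgroup.subset_closure ⟨x, hx, rfl⟩
      | one => exact zero_mem _
      | mul x y _ _ hx hy => exact add_mem hx hy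
      | inv x _ hx => exact neg_mem hx

end Pool.Agent.Results.MP_7b4824_gt.NoSuitable
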